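import Pool.Agent.Helper36.LM.Defs

/-!
# LM-J1: the rank of an alternating form is even
-/

set_option autoImplicit false

namespace Pool.Agent.Helper36.LM

open Module Finset

variable {K : Type} [Field K]

theorem even_rank_skew {W : Type} [AddCommGroup W] [Module K W]
    (T : W →ₗ[K] Dual K W) (alt : ∀ φ, T φ φ = 0) (x y : W) : T x y = - T y x := by
  have h := alt (x + y)
  simp only [map_add, LinearMap.add_apply, alt, zero_add, add_zero] at h
  exact eq_neg_of_add_eq_zero_right h

/-- one reduction step -/
theorem even_rank_step {W : Type} [AddCommGroup W] [Module K W] [FiniteDimensional K W]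
    (T : W →ₗ[K] Dual K W) (alt : ∀ φ, T φ φ = 0) (hT : T ≠ 0) :
    ∃ T' : W →ₗ[K] Dual K W, (∀ φ, T' φ φ = 0) ∧
      finrank K (LinearMap.range T) = finrank K (LinearMap.range T') + 2 := by
  have hskew := even_rank_skew T alt
  obtain ⟨u, v, huv⟩ : ∃ u v, T u v ≠ 0 := by
    by_contra hcon
    push Not at hcon
    exact hT (LinearMap.ext fun u => LinearMap.ext fun v => hcon u v)
  set c : K := T u v with hc
  have hvu : T v u = -c := by rw [hskew, hc]
  set T' : W →ₗ[K] Dual K W := T - c⁻¹ • wed (T u) (T v) with hT'
  have happ : ∀ x y, T' x y = T x y - c⁻¹ * (T u x * T v y - T v x * T u y) := by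
    intro x y
    rw [hT', LinearMap.sub_apply, LinearMap.sub_apply, LinearMap.smul_apply,
      LinearMap.smul_apply, wed_apply, smul_eq_mul]
  have halt' : ∀ φ, T' φ φ = 0 := by
    intro φ
    rw [happ, alt]
    ring
  have hskew' := even_rank_skew T' halt'
  have hu : ∀ y, T' u y = 0 := by
    intro y
    rw [happ, alt, hvu]
    field_simp
    ring
  have hv : ∀ y, T' v y = 0 := by
    intro y
    rw [happ, alt, ← hc]
    field_simp
    ring
  refine ⟨T', halt', ?_⟩
  have hli : LinearIndependent K ![T u, T v] := by
    rw [LinearIndependent.pair_iff]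
    intro s t hst
    have h1 := LinearMap.congr_fun hst v
    have h2 := LinearMap.congr_fun hst u
    simp only [LinearMap.add_apply, LinearMap.smul_apply, smul_eq_mul, LinearMap.zero_apply,
      alt, mul_zero, add_zero, zero_add, hvu, ← hc] at h1 h2
    constructor
    · exact (mul_eq_zero.1 h1).resolve_right huv
    · exact (mul_eq_zero.1 h2).resolve_right (neg_ne_zero.2 huv)
  have hfin : finrank K (Submodule.span K (Set.range ![T u, T v])) = 2 := by
    rw [finrank_span_eq_card hli]
    simp
  have hsup : LinearMap.range T =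
      LinearMap.range T' ⊔ Submodule.span K (Set.range ![T u, T v]) := by
    have h1 : T u ∈ Submodule.span K (Set.range ![T u, T v]) :=
      Submodule.subset_span ⟨0, rfl⟩
    have h2 : T v ∈ Submodule.span K (Set.range ![T u, T v]) :=
      Submodule.subset_span ⟨1, rfl⟩
    apply le_antisymm
    · rintro _ ⟨w, rfl⟩
      have h3 : T w = T' w + c⁻¹ • (T u w • T v - T v w • T u) := by
        ext y
        simp only [LinearMap.add_apply, LinearMap.smul_apply, LinearMap.sub_apply, smul_eq_mul,
          happ]
        ring
      rw [h3]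
      refine Submodule.add_mem_sup ⟨w, rfl⟩ (Submodule.smul_mem _ _ (Submodule.sub_mem _ ?_ ?_))
      · exact Submodule.smul_mem _ _ h2
      · exact Submodule.smul_mem _ _ h1
    · apply sup_le
      · rintro _ ⟨w, rfl⟩
        refine ⟨w - c⁻¹ • (T u w • v - T v w • u), ?_⟩
        ext y
        simp only [map_sub, map_smul, LinearMap.sub_apply, LinearMap.smul_apply, smul_eq_mul,
          happ]
      · rw [Submodule.span_le]
        rintro _ ⟨i, rfl⟩
        fin_cases i
        · exact ⟨u, rfl⟩
        · exact ⟨v, rfl⟩
  have hinf : LinearMap.range T' ⊓ Submodule.span K (Set.range ![T u, T v]) = ⊥ := by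
    rw [eq_bot_iff]
    rintro f ⟨⟨w, rfl⟩, hf⟩
    have h1 : (T' w) u = 0 := by rw [hskew', hu, neg_zero]
    have h2 : (T' w) v = 0 := by rw [hskew', hv, neg_zero]
    rw [Matrix.range_cons, Matrix.range_cons, Matrix.range_empty, Set.union_empty,
      Set.singleton_union] at hf
    obtain ⟨s, t, hst⟩ := Submodule.mem_span_pair.1 hf
    rw [← hst] at h1 h2
    simp only [LinearMap.add_apply, LinearMap.smul_apply, smul_eq_mul,
      alt, mul_zero, add_zero, zero_add, hvu, ← hc] at h1 h2
    have hs : s = 0 := (mul_eq_zero.1 h2).resolve_right huv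
    have ht : t = 0 := (mul_eq_zero.1 h1).resolve_right (neg_ne_zero.2 huv)
    rw [← hst, hs, ht, zero_smul, zero_smul, add_zero]
    exact Submodule.zero_mem _
  have h := Submodule.finrank_sup_add_finrank_inf_eq (LinearMap.range T')
    (Submodule.span K (Set.range ![T u, T v]))
  rw [hinf, finrank_bot, add_zero, hfin, ← hsup] at h
  exact h

/-- the rank of an alternating form is even -/
theorem even_rank {W : Type} [AddCommGroup W] [Module K W] [FiniteDimensional K W]
    (T : W →ₗ[K] Dual K W) (alt : ∀ φ, T φ φ = 0) : Even (finrank K (LinearMap.range T)) := by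
  induction h : finrank K (LinearMap.range T) using Nat.strong_induction_on generalizing T with
  | _ n ih =>
    by_cases hT : T = 0
    · rw [hT, LinearMap.range_zero, finrank_bot] at h
      rw [← h]
      exact Even.zero
    · obtain ⟨T', halt', hfin⟩ := even_rank_step T alt hT
      have h1 := ih _ (by omega) T' halt' rfl
      rw [← h, hfin]
      exact h1.add even_two

end Pool.Agent.Helper36.LM
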